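import Pool.Agent.H.MP_3bea3b_an.G

open Filter Topology Metric Set MeasureTheory

namespace Pool.Agent.Results.MP_3bea3b_an.Moduli

def Hinf (f : ℂ → ℂ) : Prop :=
  DifferentiableOn ℂ f (ball 0 1) ∧ ∃ M, ∀ z ∈ ball (0 : ℂ) 1, ‖f z‖ ≤ M

def Inner (Θ : ℂ → ℂ) : Prop :=
  Hinf Θ ∧ ∀ᵐ θ : ℝ, ∃ w : ℂ, ‖w‖ = 1 ∧
    Tendsto (fun r : ℝ => Θ (r * Complex.exp (θ * Complex.I))) (𝓝[<] 1) (𝓝 w)

def B (ω : ℝ → ℝ) (f : ℂ → ℂ) : Prop :=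
  DifferentiableOn ℂ f (ball 0 1) ∧ ∃ C > 0, ∃ r ∈ Ioo (0 : ℝ) 1, ∀ z : ℂ, r < ‖z‖ → ‖z‖ < 1 →
    (1 - ‖z‖) * ‖deriv f z‖ ≤ C * ω (1 - ‖z‖)

def Two (ω : ℝ → ℝ) (f Θ : ℂ → ℂ) (ε : ℝ) : Prop :=
  ∃ C > 0, ∀ z : ℂ, 0 < ‖z‖ → ‖z‖ < 1 → ‖Θ z‖ < ε → ‖f z‖ ≤ C * ω (1 - ‖z‖)

def P (ω : ℝ → ℝ) : Prop :=
  ∀ f Θ : ℂ → ℂ, B ω f → Hinf f → Inner Θ →
    List.TFAE [B ω (f * Θ) ∧ Hinf (f * Θ), ∃ ε ∈ Ioo (0 : ℝ) 1, Two ω f Θ ε, ∀ ε ∈ Ioo (0 : ℝ) 1, Two ω f Θ ε]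

open Pool.Agent.H.MP_3bea3b_an

theorem result (ω : ℝ → ℝ) (_hc : ContinuousOn ω (Ioo 0 1)) (hm : MonotoneOn ω (Ioo 0 1))
    (hp : ∀ t ∈ Ioo (0 : ℝ) 1, 0 < ω t) :
    P ω ↔ (∃ c > 0, ∀ t ∈ Ioo (0 : ℝ) 1, c ≤ ω t) ∨
      ∃ C > 0, (∀ s t, 0 < s → s ≤ t → t ≤ 1 / 2 → ω t / t ≤ C * (ω s / s)) ∧
        ∀ t ∈ Ioc (0 : ℝ) (1 / 2), ∫⁻ s in Ioo 0 t, ENNReal.ofReal (ω s / s) ≤ ENNReal.ofReal (C * ω t) := by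
  have hW := mo hm hp
  have b : ∀ f, Hinf f → (B ω f ↔ Bw (fun t => ω (min t (1 / 2))) f) := fun f ⟨d, M, hM⟩ =>
    ⟨fun ⟨_, C, C0, r, r1, h⟩ => (tr1 hm hp (S := fun _ => True) (fun z hz => cau1 d hM hz) C0 r1.2
      fun z a b _ => h z a b).imp fun C h => ⟨h.1, fun z hz => h.2 z hz trivial⟩,
    fun ⟨C, C0, h⟩ => ⟨d, (tr2 hm hp (S := fun _ => True) ⟨C, C0, fun z hz _ => h z hz⟩).imp fun C h =>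
      ⟨h.1, 1 / 2, ⟨one_half_pos, one_half_lt_one⟩, fun z a b => h.2 z (one_half_pos.trans a) b trivial⟩⟩⟩
  have t : ∀ f Θ ε, Hinf f → (Two ω f Θ ε ↔ Tw (fun t => ω (min t (1 / 2))) f Θ ε) := fun f Θ ε ⟨_, M, hM⟩ =>
    ⟨fun ⟨C, C0, h⟩ => tr1 hm hp hM C0 one_pos h, tr2 hm hp⟩
  have hi : ∀ f Θ, Hinf f → Hinf Θ → Hinf (f * Θ) := fun f Θ ⟨d, M, hM⟩ ⟨d', M', hM'⟩ =>
    ⟨d.mul d', M * M', fun z hz => norm_mul_le_of_le (hM z hz) (hM' z hz)⟩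
  constructor
  · intro h
    refine or_iff_not_imp_left.2 fun k => ?_
    push Not at k
    have h0 : ∀ c, 0 < c → ∃ t, 0 < t ∧ ω (min t (1 / 2)) < c := fun c hc =>
      let ⟨t, m, e⟩ := k c hc; ⟨t, m.1, (hm (mm m.1) m (min_le_left _ _)).trans_lt e⟩
    have pw : PW fun t => ω (min t (1 / 2)) := fun f Θ f1 f2 f3 a1 a2 a3 e => by
      have i : Hinf f := ⟨f1, 2, f2⟩
      have q := h f Θ ((b f i).2 f3) i ⟨⟨a1, 1, a2⟩, a3⟩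
      have e1 : ∃ ε ∈ Ioo (0 : ℝ) 1, Two ω f Θ ε := ⟨_, by norm_num, (t f Θ _ i).2 e⟩
      have q1 : B ω (f * Θ) ∧ Hinf (f * Θ) := (q.out 1 0).1 e1
      have q2 : ∀ ε ∈ Ioo (0 : ℝ) 1, Two ω f Θ ε := (q.out 1 2).1 e1
      exact ⟨(b _ q1.2).1 q1.1, (t f Θ _ i).1 (q2 _ (by norm_num))⟩
    obtain ⟨C, hC⟩ := adm hW pw h0
    obtain ⟨l, l0, l1, hl⟩ := geom hW pw h0
    refine ⟨max C (2 / l), lt_max_of_lt_right (by positivity), fun s u s0 s1 u1 => ?_, fun u hu =>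
      (di2 hm hp l0 l1 hl hu.1 hu.2).trans (ENNReal.ofReal_le_ofReal (mul_le_mul_of_nonneg_right
        (le_max_right _ _) (hp u ⟨hu.1, by linarith [hu.2]⟩).le))⟩
    have := hC s u s0 s1 (by linarith)
    simp only [min_eq_left u1, min_eq_left (s1.trans u1)] at this
    refine le_trans ?_ (mul_le_mul_of_nonneg_right (le_max_left _ _) (div_pos (hp s ⟨s0, by linarith⟩) s0).le)
    rw [← mul_div_assoc, div_le_div_iff₀ (s0.trans_le s1) s0]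
    linarith
  rintro (⟨c, c0, h⟩ | ⟨C, C0, h1, h2⟩) f Θ f1 f2 ⟨a1, a2⟩
  · have g : ∀ (g : ℂ → ℝ) M, (∀ z ∈ ball (0 : ℂ) 1, g z ≤ M) → ∃ C, 0 ≤ C ∧ ∀ z ∈ ball (0 : ℂ) 1,
        g z ≤ C * ω (min (1 - ‖z‖) (1 / 2)) := fun g M hM => ⟨|M| / c, by positivity, fun z hz => by
      rw [div_mul_eq_mul_div, le_div_iff₀ c0]
      exact mul_le_mul ((hM z hz).trans (le_abs_self M)) (h _ (mm (sub_pos.2 (mem_ball_zero_iff.1 hz))))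
        c0.le (abs_nonneg M)⟩
    have i := hi f Θ f2 a1
    have q1 := (b _ i).2 (g _ _ fun z hz => cau1 i.1 i.2.choose_spec hz)
    have q2 : ∀ ε, Two ω f Θ ε := fun ε => (t f Θ ε f2).2 ((g _ _ f2.2.choose_spec).imp fun C h =>
      ⟨h.1, fun z hz _ => h.2 z hz⟩)
    tfae_have 1 → 3 := fun _ ε _ => q2 ε
    tfae_have 3 → 2 := fun h => ⟨1 / 2, by norm_num, h _ (by norm_num)⟩
    tfae_have 2 → 1 := fun _ => ⟨q1, i⟩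
    tfae_finish
  have ad := ad1 hp h1
  obtain ⟨l, l0, l1, hl⟩ := di1 hm hp C0 h2
  have a3 := fun z => le1 a1.1 a1.2.choose_spec a2 (z := z)
  have i := hi f Θ f2 a1
  obtain ⟨L, L0, hL⟩ := lip hW ad l0 l1 hl f2.1 f2.2.choose_spec ((b f f2).1 f1)
  tfae_have 1 → 3 := fun h ε e => by
    obtain ⟨L', L1, hL'⟩ := lip hW ad l0 l1 hl i.1 i.2.choose_spec ((b _ i).1 h.1)
    exact (t f Θ ε f2).2 (dirA hW ad a2 a3 f2.2.choose_spec L0 L1 hL hL' e.2)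
  tfae_have 3 → 2 := fun h => ⟨1 / 2, by norm_num, h _ (by norm_num)⟩
  tfae_have 2 → 1 := fun ⟨ε, e, h⟩ => ⟨(b _ i).2 (dirB hW ad a2 a1.1 a3 f2.1 f2.2.choose_spec ((b f f2).1 f1)
    L0 hL e.1 ((t f Θ ε f2).1 h)), i⟩
  tfae_finish

end Pool.Agent.Results.MP_3bea3b_an.Moduli
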